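import Pool.Agent.K3h53.MS.Nor
import Pool.Agent.W180.TP.Nor

/-!
# Preperiodic points of bounded degree for all members of one conjugacy class
-/

set_option autoImplicit false

namespace Pool.Agent.K3h53.MS

open Pool.Agent.R323 Pool.Agent.R323.PN Height Polynomial IntermediateField
open Pool.Agent.R559.NP (Cj cj_iter mulVec_ne)

variable {d : ℕ}

theorem wg_mulVec (A : Matrix (Fin 2) (Fin 2) Qb) (x y : Fin 2 → Qb) :
    wg (A.mulVec x) (A.mulVec y) = A.det * wg x y := by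
  rw [Matrix.det_fin_two]
  simp only [wg, Matrix.mulVec, dotProduct, Fin.sum_univ_two]
  ring

theorem proj_ne {P Q : Projectivization Qb (Fin 2 → Qb)} (h : P ≠ Q) : wg P.rep Q.rep ≠ 0 := by
  intro h5
  apply h
  obtain ⟨r, hr⟩ := par_field P.rep_nonzero h5
  rw [← P.mk_rep, ← Q.mk_rep, Projectivization.mk_eq_mk_iff']
  have hr0 : r ≠ 0 := by
    rintro rfl
    rw [zero_smul] at hr
    exact Q.rep_nonzero hr
  refine ⟨r⁻¹, ?_⟩
  rw [hr, smul_smul, inv_mul_cancel₀ hr0, one_smul]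

/-- preperiodic, in terms of wedge products -/
def Pp (G' : Fin 2 → Fin (d + 1) → Qb) (z : Fin 2 → Qb) : Prop :=
  ∃ m n : ℕ, m < n ∧ wg ((ac G')^[m] z) ((ac G')^[n] z) = 0

theorem Pp.smul {G' : Fin 2 → Fin (d + 1) → Qb} {z : Fin 2 → Qb} (h : Pp G' z) (c : Qb) :
    Pp G' (c • z) := by
  obtain ⟨m, n, hmn, h⟩ := h
  refine ⟨m, n, hmn, ?_⟩
  rw [ac_iter_smul, ac_iter_smul, wg_smul, h, mul_zero]

theorem Pp.of_smul {G' : Fin 2 → Fin (d + 1) → Qb} {z : Fin 2 → Qb} {c : Qb} (hc : c ≠ 0)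
    (h : Pp G' (c • z)) : Pp G' z := by
  have h1 := h.smul c⁻¹
  rwa [smul_smul, inv_mul_cancel₀ hc, one_smul] at h1

/-- the preperiodic points with coordinates in fields of degree at most `e` -/
def Ue (G' : Fin 2 → Fin (d + 1) → Qb) (e : ℕ) : Set (Projectivization Qb (Fin 2 → Qb)) :=
  {P | Pp G' P.rep ∧ ∃ E : IntermediateField ℚ Qb, FiniteDimensional ℚ E ∧
    Module.finrank ℚ E ≤ e ∧ ∃ w : Fin 2 → Qb, (∀ l, w l ∈ E) ∧ ∃ c : Qb, c ≠ 0 ∧ P.rep = c • w}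

theorem Ue_finite (hd : 2 ≤ d) (K : IntermediateField ℚ Qb) [NumberField K]
    (G : Fin 2 → Fin (d + 1) → K)
    (hG : ∀ v : Fin 2 → Qb, ac (fun i j => (G i j : Qb)) v = 0 → v = 0) (e : ℕ) :
    (Ue (fun i j => (G i j : Qb)) e).Finite := by
  classical
  obtain ⟨κ, hκ⟩ := ht_bound hd K G hG (e * Module.finrank ℚ K)
  have hN := Pool.Agent.W180.TP.northcott_bdd Qb (e * Module.finrank ℚ K) (Real.log κ)
  have hne : ∀ t : Qb, (![t, 1] : Fin 2 → Qb) ≠ 0 := by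
    intro t h
    have := congrFun h 1
    simp at this
  have hne' : (![1, 0] : Fin 2 → Qb) ≠ 0 := by
    intro h
    have := congrFun h 0
    simp at this
  refine ((hN.image fun t => Projectivization.mk Qb _ (hne t)).union
    (Set.finite_singleton (Projectivization.mk Qb _ hne'))).subset ?_
  rintro P ⟨⟨m, n, hmn, h0⟩, E, hE, hEe, w, hw, c, hc, hP⟩
  have hw0 : w ≠ 0 := by
    rintro rfl
    rw [smul_zero] at hP
    exact P.rep_nonzero hP
  haveI : FiniteDimensional ℚ E := hE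
  haveI : NumberField (E ⊔ K : IntermediateField ℚ Qb) := ⟨⟩
  have hfr : Module.finrank ℚ (E ⊔ K : IntermediateField ℚ Qb) ≤ e * Module.finrank ℚ K :=
    (IntermediateField.finrank_sup_le E K).trans (Nat.mul_le_mul_right _ hEe)
  obtain ⟨wE, hwE⟩ : ∃ wE : Fin 2 → (E ⊔ K : IntermediateField ℚ Qb), ∀ i, (wE i : Qb) = w i :=
    ⟨fun i => ⟨w i, (le_sup_left : E ≤ E ⊔ K) (hw i)⟩, fun i => rfl⟩
  have hwE' : (fun i => (wE i : Qb)) = w := funext hwE
  have hwE0 : wE ≠ 0 := by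
    intro h
    apply hw0
    rw [← hwE', h]
    rfl
  have h1 : wg ((ac fun i j => (G i j : Qb))^[m] w) ((ac fun i j => (G i j : Qb))^[n] w) = 0 := by
    rw [hP, ac_iter_smul, ac_iter_smul, wg_smul] at h0
    exact (mul_eq_zero.1 h0).resolve_left (mul_ne_zero (pow_ne_zero _ hc) (pow_ne_zero _ hc))
  have h2 := hκ (E ⊔ K) le_sup_right hfr wE hwE0 m n hmn (by rw [hwE']; exact h1)
  by_cases hw1 : wE 1 = 0
  · right
    rw [Set.mem_singleton_iff, ← P.mk_rep, Projectivization.mk_eq_mk_iff']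
    refine ⟨P.rep 0, ?_⟩
    have hw1' : w 1 = 0 := by
      rw [← hwE, hw1]
      rfl
    funext l
    fin_cases l
    · simp
    · have : P.rep 1 = 0 := by
        rw [hP, Pi.smul_apply, hw1', smul_zero]
      simp [this]
  · left
    have hw1' : w 1 ≠ 0 := by
      rw [← hwE]
      exact coe_ne _ hw1
    refine ⟨w 0 / w 1, ⟨(E ⊔ K : IntermediateField ℚ Qb), inferInstance, inferInstance,
      algebraMap _ Qb, wE 0 / wE 1, ?_, hfr, ?_⟩, ?_⟩
    · rw [map_div₀]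
      show (wE 0 : Qb) / (wE 1 : Qb) = _
      rw [hwE, hwE]
    · have e1 : wE = (wE 1) • (![wE 0 / wE 1, 1] : Fin 2 → (E ⊔ K : IntermediateField ℚ Qb)) := by
        funext i
        fin_cases i
        · simp [mul_div_cancel₀, hw1]
        · simp
      rw [e1, mulHeight_smul_eq_mulHeight _ hw1, ← mulHeight₁_eq_mulHeight] at h2
      rw [logHeight₁_eq_log_mulHeight₁]
      exact Real.log_le_log (mulHeight₁_pos _) h2
    · rw [← P.mk_rep, Projectivization.mk_eq_mk_iff']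
      refine ⟨(c * w 1)⁻¹, ?_⟩
      rw [hP]
      funext l
      fin_cases l
      · simp only [Pi.smul_apply, smul_eq_mul, Fin.zero_eta, Matrix.cons_val_zero]
        field_simp
      · simp only [Pi.smul_apply, smul_eq_mul, Fin.mk_one, Matrix.cons_val_one,
          Matrix.cons_val_fin_one]
        field_simp

/-- conjugation maps preperiodic points to preperiodic points -/
theorem Pp.conj {F' G' : Fin 2 → Fin (d + 1) → Qb} (hF : ∀ v : Fin 2 → Qb, ac F' v = 0 → v = 0)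
    {A : Matrix (Fin 2) (Fin 2) Qb}
    (h : ∀ v : Fin 2 → Qb, v ≠ 0 → ∃ c : Qb, c ≠ 0 ∧ ac G' (A.mulVec v) = c • A.mulVec (ac F' v))
    {z : Fin 2 → Qb} (hz : z ≠ 0) (hp : Pp F' z) : Pp G' (A.mulVec z) := by
  obtain ⟨m, n, hmn, h0⟩ := hp
  have hF' : ∀ v : Fin 2 → Qb, v ≠ 0 → ac F' v ≠ 0 := fun v hv h => hv (hF v h)
  obtain ⟨c1, -, e1⟩ := cj_iter hF' h hz m
  obtain ⟨c2, -, e2⟩ := cj_iter hF' h hz n
  refine ⟨m, n, hmn, ?_⟩
  rw [e1, e2, wg_smul, wg_mulVec, h0, mul_zero, mul_zero]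

theorem pp_conj_inv {F' G' : Fin 2 → Fin (d + 1) → Qb} (hF : ∀ v : Fin 2 → Qb, ac F' v = 0 → v = 0)
    {A : Matrix (Fin 2) (Fin 2) Qb} (hA : A.det ≠ 0)
    (h : ∀ v : Fin 2 → Qb, v ≠ 0 → ∃ c : Qb, c ≠ 0 ∧ ac G' (A.mulVec v) = c • A.mulVec (ac F' v))
    {z : Fin 2 → Qb} (hz : z ≠ 0) {m n : ℕ}
    (h0 : wg ((ac G')^[m] (A.mulVec z)) ((ac G')^[n] (A.mulVec z)) = 0) :
    wg ((ac F')^[m] z) ((ac F')^[n] z) = 0 := by
  have hF' : ∀ v : Fin 2 → Qb, v ≠ 0 → ac F' v ≠ 0 := fun v hv h => hv (hF v h)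
  obtain ⟨c1, hc1, e1⟩ := cj_iter hF' h hz m
  obtain ⟨c2, hc2, e2⟩ := cj_iter hF' h hz n
  rw [e1, e2, wg_smul, wg_mulVec] at h0
  exact ((mul_eq_zero.1 h0).resolve_left (mul_ne_zero hc1 hc2) |> mul_eq_zero.1).resolve_left hA

/-- **One class.** The maps over number fields of degree at most `D` in one conjugacy class over the
algebraic numbers have a bounded number of preperiodic points of degree at most `B`. -/
theorem class_bound (hd : 2 ≤ d) (D B : ℕ) (K₀ : IntermediateField ℚ Qb) [NumberField K₀]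
    (G : Fin 2 → Fin (d + 1) → K₀)
    (hG : ∀ v : Fin 2 → Qb, ac (fun i j => (G i j : Qb)) v = 0 → v = 0) :
    ∃ M : ℕ, ∀ (K : IntermediateField ℚ Qb) [NumberField K] (F : Fin 2 → Fin (d + 1) → K),
      Module.finrank ℚ K ≤ D →
      (∀ v : Fin 2 → Qb, ac (fun i j => (F i j : Qb)) v = 0 → v = 0) →
      Cj (fun i j => (F i j : Qb)) (fun i j => (G i j : Qb)) →
      (TT K (fun i j => (F i j : Qb)) B).encard ≤ (M : ℕ∞) := by
  classical
  by_cases h3 : ∃ R : Fin 3 → Fin 2 → Qb, (∀ k, R k ≠ 0) ∧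
      (∀ k, Pp (fun i j => (G i j : Qb)) (R k)) ∧ ∀ i j, i ≠ j → wg (R i) (R j) ≠ 0
  · -- three points of bounded degree
    obtain ⟨R', hR0', hRp', hRne'⟩ := h3
    have hdeg : ∀ k, ∃ E : IntermediateField ℚ Qb, FiniteDimensional ℚ E ∧
        ∃ w : Fin 2 → Qb, (∀ l, w l ∈ E) ∧ ∃ c : Qb, c ≠ 0 ∧ R' k = c • w := by
      intro k
      obtain ⟨m, n, hmn, h0⟩ := hRp' k
      obtain ⟨E, -, h2, -, h4⟩ := deg_short hd K₀ G hG (hR0' k) hmn h0
      exact ⟨E, h2, h4⟩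
    choose E₀ hE₀ R hRE cR hcR hRR using hdeg
    have hR0 : ∀ k, R k ≠ 0 := by
      intro k h
      apply hR0' k
      rw [hRR, h, smul_zero]
    have hRp : ∀ k, Pp (fun i j => (G i j : Qb)) (R k) := by
      intro k
      have h1 := hRp' k
      rw [hRR] at h1
      exact h1.of_smul (hcR k)
    have hRne : ∀ i j, i ≠ j → wg (R i) (R j) ≠ 0 := by
      intro i j hij h
      apply hRne' i j hij
      rw [hRR i, hRR j, wg_smul, h, mul_zero]
    choose mm nn hmn hRw using hRp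
    haveI := hE₀ 0
    haveI := hE₀ 1
    haveI := hE₀ 2
    obtain ⟨e₀, he₀⟩ : ∃ e₀ : ℕ, e₀ = Module.finrank ℚ (E₀ 0) * Module.finrank ℚ (E₀ 1) *
      Module.finrank ℚ (E₀ 2) := ⟨_, rfl⟩
    obtain ⟨q, hq⟩ : ∃ q : Fin 3 → ℕ, q = fun k => (d ^ mm k + d ^ nn k) * D := ⟨_, rfl⟩
    obtain ⟨e, he⟩ : ∃ e : ℕ, e = e₀ * (q 0 * q 1 * q 2) * (B * D) := ⟨_, rfl⟩
    have hfin := Ue_finite hd K₀ G hG e
    refine ⟨hfin.toFinset.card, fun K _ F hKD hF hc => ?_⟩
    obtain ⟨A, hA, h⟩ := hc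
    have hu : IsUnit A.det := isUnit_iff_ne_zero.2 hA
    -- the three points for `F`
    have hS : ∀ k, ∃ E : IntermediateField ℚ Qb, FiniteDimensional ℚ E ∧
        Module.finrank ℚ E ≤ q k ∧ ∃ w : Fin 2 → Qb, (∀ l, w l ∈ E) ∧ w ≠ 0 ∧
          ∃ lam : Qb, lam ≠ 0 ∧ A.mulVec w = lam • R k := by
      intro k
      have e1 : A.mulVec (A⁻¹.mulVec (R k)) = R k := by
        rw [Matrix.mulVec_mulVec, Matrix.mul_nonsing_inv A hu, Matrix.one_mulVec]
      have hz : A⁻¹.mulVec (R k) ≠ 0 := by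
        intro h0
        rw [h0, Matrix.mulVec_zero] at e1
        exact hR0 k e1.symm
      have h1 := hRw k
      rw [← e1] at h1
      have h2 := pp_conj_inv hF hA h hz h1
      obtain ⟨E, -, g2, g3, w, g4, c, g5, g6⟩ := deg_short hd K F hF hz (hmn k) h2
      refine ⟨E, g2, ?_, w, g4, ?_, c⁻¹, inv_ne_zero g5, ?_⟩
      · rw [hq]
        exact g3.trans (Nat.mul_le_mul_left _ hKD)
      · intro h0
        rw [h0, smul_zero] at g6
        exact hz g6
      · rw [← e1, g6, Matrix.mulVec_smul, smul_smul, inv_mul_cancel₀ g5, one_smul]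
    choose E₁ hE₁ hE₁q S hSE hS0 lam hlam hSR using hS
    haveI := hE₁ 0
    haveI := hE₁ 1
    haveI := hE₁ 2
    have hSne : ∀ i j, i ≠ j → wg (S i) (S j) ≠ 0 := by
      intro i j hij h0
      have h1 := wg_mulVec A (S i) (S j)
      rw [hSR, hSR, wg_smul, h0, mul_zero] at h1
      exact hRne i j hij ((mul_eq_zero.1 h1).resolve_left (mul_ne_zero (hlam i) (hlam j)))
    have hinj : Function.Injective (Matrix.mulVecLin A) := by
      rw [injective_iff_map_eq_zero]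
      intro v hv
      exact Matrix.eq_zero_of_mulVec_eq_zero hA hv
    rw [← Function.Injective.encard_image (Projectivization.map_injective _ hinj),
      ← Set.encard_coe_eq_coe_finsetCard, hfin.coe_toFinset]
    refine Set.encard_le_encard ?_
    rintro _ ⟨p, ⟨⟨m, n, hmn', c, hc, hp⟩, E, hKE, hEf, hEB, w, hwE, c', hc', hpw⟩, rfl⟩
    obtain ⟨a, ha0, ha⟩ : ∃ a : Qb, a ≠ 0 ∧
        (Projectivization.map (Matrix.mulVecLin A) hinj p).rep = a • A.mulVec p.rep := by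
      have h0 : A.mulVec p.rep ≠ 0 := mulVec_ne hA p.rep_nonzero
      have h1 : Projectivization.map (Matrix.mulVecLin A) hinj p =
          Projectivization.mk Qb (A.mulVec p.rep) h0 := by
        conv_lhs => rw [← p.mk_rep]
        rw [Projectivization.map_mk]
        rfl
      obtain ⟨u, hu⟩ := Projectivization.exists_smul_eq_mk_rep Qb (A.mulVec p.rep) h0
      refine ⟨(u : Qb), u.ne_zero, ?_⟩
      rw [h1, ← hu]
      rfl
    have hpp : Pp (fun i j => (F i j : Qb)) p.rep := ⟨m, n, hmn', wg_of_smul hp⟩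
    haveI := hEf
    have hle : ∀ k, E₀ k ≤ E₀ 0 ⊔ E₀ 1 ⊔ E₀ 2 := by
      intro k
      fin_cases k
      · exact le_sup_left.trans le_sup_left
      · exact le_sup_right.trans le_sup_left
      · exact le_sup_right
    have hle' : ∀ k, E₁ k ≤ E₁ 0 ⊔ E₁ 1 ⊔ E₁ 2 := by
      intro k
      fin_cases k
      · exact le_sup_left.trans le_sup_left
      · exact le_sup_right.trans le_sup_left
      · exact le_sup_right
    have l1 : E₀ 0 ⊔ E₀ 1 ⊔ E₀ 2 ≤ (E₀ 0 ⊔ E₀ 1 ⊔ E₀ 2) ⊔ (E₁ 0 ⊔ E₁ 1 ⊔ E₁ 2) ⊔ E :=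
      le_sup_left.trans le_sup_left
    have l2 : E₁ 0 ⊔ E₁ 1 ⊔ E₁ 2 ≤ (E₀ 0 ⊔ E₀ 1 ⊔ E₀ 2) ⊔ (E₁ 0 ⊔ E₁ 1 ⊔ E₁ 2) ⊔ E :=
      le_sup_right.trans le_sup_left
    have l3 : E ≤ (E₀ 0 ⊔ E₀ 1 ⊔ E₀ 2) ⊔ (E₁ 0 ⊔ E₁ 1 ⊔ E₁ 2) ⊔ E := le_sup_right
    obtain ⟨μ, hμ, hμA⟩ := mat_field ((E₀ 0 ⊔ E₀ 1 ⊔ E₀ 2) ⊔ (E₁ 0 ⊔ E₁ 1 ⊔ E₁ 2) ⊔ E) A R S
      (fun k l => l1 (hle k (hRE k l))) (fun k l => l2 (hle' k (hSE k l))) hRne hSne lam hlam hSR
    refine ⟨?_, (E₀ 0 ⊔ E₀ 1 ⊔ E₀ 2) ⊔ (E₁ 0 ⊔ E₁ 1 ⊔ E₁ 2) ⊔ E, inferInstance, ?_,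
      μ • A.mulVec w, hμA w fun l => l3 (hwE l), a * c' * μ⁻¹,
      mul_ne_zero (mul_ne_zero ha0 hc') (inv_ne_zero hμ), ?_⟩
    · rw [ha]
      exact (Pp.conj hF h p.rep_nonzero hpp).smul a
    · rw [he, he₀]
      refine (IntermediateField.finrank_sup_le _ _).trans (Nat.mul_le_mul ?_ ?_)
      · refine (IntermediateField.finrank_sup_le _ _).trans (Nat.mul_le_mul ?_ ?_)
        · exact (IntermediateField.finrank_sup_le _ _).trans
            (Nat.mul_le_mul_right _ (IntermediateField.finrank_sup_le _ _))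
        · exact (IntermediateField.finrank_sup_le _ _).trans
            (Nat.mul_le_mul ((IntermediateField.finrank_sup_le _ _).trans
              (Nat.mul_le_mul (hE₁q 0) (hE₁q 1))) (hE₁q 2))
      · exact hEB.trans (Nat.mul_le_mul_left _ hKD)
    · rw [ha, hpw, Matrix.mulVec_smul, smul_smul, smul_smul]
      congr 1
      field_simp
  · -- fewer than three points
    refine ⟨2, fun K _ F hKD hF hc => ?_⟩
    by_contra hcon
    rw [not_le] at hcon
    apply h3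
    obtain ⟨A, hA, h⟩ := hc
    obtain ⟨t, hts, htc⟩ := Set.exists_subset_encard_eq (Order.add_one_le_of_lt hcon)
    have hfin : t.Finite := by
      apply Set.finite_of_encard_eq_coe (k := 3)
      rw [htc]
      norm_num
    have hcard : hfin.toFinset.card = 3 := by
      have h1 := hfin.encard_eq_coe_toFinset_card
      rw [htc] at h1
      exact_mod_cast h1.symm
    obtain ⟨P0, P1, P2, h01, h02, h12, hP⟩ := Finset.card_eq_three.1 hcard
    have hmem : ∀ P ∈ ({P0, P1, P2} : Finset _), Pp (fun i j => (F i j : Qb)) P.rep := by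
      intro P hPm
      rw [← hP, hfin.mem_toFinset] at hPm
      obtain ⟨⟨m, n, hmn', c, hc, hp⟩, -⟩ := hts hPm
      exact ⟨m, n, hmn', wg_of_smul hp⟩
    let PP : Fin 3 → Projectivization Qb (Fin 2 → Qb) := ![P0, P1, P2]
    have hPPne : ∀ i j, i ≠ j → PP i ≠ PP j := by
      intro i j hij
      fin_cases i <;> fin_cases j <;> simp_all [PP, Ne.symm]
    have hPPm : ∀ i, PP i ∈ ({P0, P1, P2} : Finset _) := by
      intro i
      fin_cases i <;> simp [PP]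
    refine ⟨fun k => A.mulVec (PP k).rep, fun k => mulVec_ne hA (PP k).rep_nonzero,
      fun k => Pp.conj hF h (PP k).rep_nonzero (hmem _ (hPPm k)), fun i j hij => ?_⟩
    rw [wg_mulVec]
    exact mul_ne_zero hA (proj_ne (hPPne i j hij))

end Pool.Agent.K3h53.MS
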