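import Pool.Agent.Results.MP_13bc7b_nt.SymmetricPowersFewClasses
import Pool.Agent.K3h53.MS.Cls
import Pool.Agent.R479.DA.Lim

/-!
# Conjugacy classes over the algebraic numbers with many preperiodic points
-/

set_option autoImplicit false

namespace Pool.Agent.K3h53.MS

open Pool.Agent.Results.MP_13bc7b_nt
open SymmetricPowersFewClasses (Qbar Pair act height preperiodic)

variable {d : ℕ}

/-- conjugacy classes over the algebraic numbers -/
def stq (d : ℕ) : Setoid (Fin 2 → Fin (d + 1) → Qbar) where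
  r F G := Pool.Agent.R559.NP.Cj F G
  iseqv := ⟨Pool.Agent.R559.NP.Cj.refl, Pool.Agent.R559.NP.Cj.symm, Pool.Agent.R559.NP.Cj.trans⟩

/-- at most `M` preperiodic points of degree at most `B`, and at most `M` preperiodic points over the
field for all symmetric powers of order at most `B` -/
def Few (B M : ℕ) (φ : Pair d) : Prop :=
  (φ.preperiodicOfDegree B).encard ≤ (M : ℕ∞) ∧
    ∀ n : ℕ, 1 ≤ n → n ≤ B → ∀ Φ : Fin (n + 1) → MvPolynomial (Fin (n + 1)) φ.K,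
      φ.IsSymmetricPower Φ → (preperiodic Φ).encard ≤ (M : ℕ∞)

theorem Few.mono {B M M' : ℕ} (h : M ≤ M') {φ : Pair d} (hf : Few B M φ) : Few B M' φ :=
  ⟨hf.1.trans (by exact_mod_cast h), fun n h1 h2 Φ h3 =>
    (hf.2 n h1 h2 Φ h3).trans (by exact_mod_cast h)⟩

theorem not_few {D B M X : ℕ} {φ : Pair d} (h1 : Module.finrank ℚ φ.K ≤ D) (h2 : height φ.F ≤ X)
    (h3 : ¬ Few B M φ) : φ.Exceptional D B M X := by
  refine ⟨h1, h2, ?_⟩
  by_contra hcon
  push Not at hcon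
  exact h3 ⟨hcon.2, fun n g1 g2 Φ g3 => hcon.1 n g1 g2 Φ g3⟩

theorem exc_few {D B M X : ℕ} {φ : Pair d} (h : φ.Exceptional D B M X) : ¬ Few B M φ := by
  rintro ⟨h1, h2⟩
  rcases h.2.2 with ⟨n, g1, g2, Φ, g3, g4⟩ | g
  · exact absurd (h2 n g1 g2 Φ g3) (not_le.2 g4)
  · exact absurd h1 (not_le.2 g)

/-- the bad classes -/
def BadZ (d D B M T : ℕ) : Set (Quotient (stq d)) :=
  {z | ∃ φ : Pair d, Quotient.mk (stq d) φ.ext = z ∧ φ.IsEndomorphism ∧ φ.Exceptional D B M T}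

theorem BadZ_mono {D B M T T' : ℕ} (h : T ≤ T') : BadZ d D B M T ⊆ BadZ d D B M T' := by
  rintro z ⟨φ, h1, h2, h3, h4, h5⟩
  exact ⟨φ, h1, h2, h3, h4.trans (by exact_mod_cast h), h5⟩

theorem few_bad (D B : ℕ) (hd : 2 ≤ d) (ε : ℝ) (hε : 0 < ε) : ∃ (M : ℕ) (C : ℝ), ∀ T : ℕ, 1 ≤ T →
    (BadZ d D B M T).Finite ∧ ((BadZ d D B M T).ncard : ℝ) ≤ |C| * (T : ℝ) ^ ε := by
  classical
  obtain ⟨M, C, hC⟩ := SymmetricPowersFewClasses.result D B d hd ε hε
  refine ⟨M, C, fun T hT => ?_⟩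
  have key : ∀ P : Finset (Quotient (stq d)), (∀ z ∈ P, z ∈ BadZ d D B M T) →
      (P.card : ℝ) ≤ C * (T : ℝ) ^ ε := by
    intro P hP
    rcases P.eq_empty_or_nonempty with rfl | ⟨z₀, hz₀⟩
    · have h0 := hC T hT ∅ (by simp) (by simp)
      simpa using h0
    haveI : Nonempty (Pair d) := ⟨(hP z₀ hz₀).choose⟩
    choose! g hg using hP
    have hinj : Set.InjOn g P := by
      intro z hz z' hz' he
      rw [← (hg z hz).1, ← (hg z' hz').1, he]
    rw [← Finset.card_image_of_injOn hinj]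
    refine hC T hT (P.image g) ?_ ?_
    · intro φ hφ
      obtain ⟨z, hz, rfl⟩ := Finset.mem_image.1 hφ
      exact (hg z hz).2
    · intro φ hφ ψ hψ hne hc
      obtain ⟨z, hz, rfl⟩ := Finset.mem_image.1 hφ
      obtain ⟨z', hz', rfl⟩ := Finset.mem_image.1 hψ
      apply hne
      have : z = z' := by
        rw [← (hg z hz).1, ← (hg z' hz').1]
        refine Quotient.sound (s := stq d) ?_
        obtain ⟨E, -, -, A, -, hA, h⟩ := hc
        exact ⟨A, hA, h⟩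
      rw [this]
  have hfin : (BadZ d D B M T).Finite := by
    by_contra hinf
    obtain ⟨P, hP1, hP2⟩ := (show (BadZ d D B M T).Infinite from hinf).exists_subset_card_eq
      (⌊C * (T : ℝ) ^ ε⌋₊ + 1)
    have h2 := key P (fun x hx => hP1 hx)
    rw [hP2] at h2
    push_cast at h2
    have h3 := Nat.lt_floor_add_one (C * (T : ℝ) ^ ε)
    linarith
  refine ⟨hfin, ?_⟩
  rw [Set.ncard_eq_toFinset_card _ hfin]
  refine (key hfin.toFinset (fun x hx => by
    rw [Set.Finite.mem_toFinset] at hx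
    exact hx)).trans ?_
  exact mul_le_mul_of_nonneg_right (le_abs_self _) (by positivity)

/-- each class is bounded -/
theorem cls (D B : ℕ) (hd : 2 ≤ d) (z : Quotient (stq d)) : ∃ M : ℕ, ∀ φ : Pair d,
    Quotient.mk (stq d) φ.ext = z → φ.IsEndomorphism → Module.finrank ℚ φ.K ≤ D → Few B M φ := by
  by_cases h : ∃ φ : Pair d, Quotient.mk (stq d) φ.ext = z ∧ φ.IsEndomorphism
  · obtain ⟨φ₀, h1, h2⟩ := h
    obtain ⟨M, hM⟩ := class_bound hd D B φ₀.K φ₀.F h2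
    refine ⟨(M + 1) ^ (B + 1), fun φ g1 g2 g3 => ?_⟩
    have hc : Pool.Agent.R559.NP.Cj φ.ext φ₀.ext := Quotient.exact (s := stq d) (g1.trans h1.symm)
    have hTT := hM φ.K φ.F g3 g2 hc
    have hMle : M ≤ (M + 1) ^ (B + 1) := (Nat.le_succ M).trans (Nat.le_self_pow (by omega) _)
    refine ⟨hTT.trans (by exact_mod_cast hMle), fun n k1 k2 Φ k3 => ?_⟩
    have h7 := Pool.Agent.R323.PN.SS_le k1 φ.K k2 g2 Φ k3.2 hTT
    refine h7.trans ?_
    have h8 : M ^ n ≤ (M + 1) ^ (B + 1) :=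
      (Nat.pow_le_pow_left (Nat.le_succ M) n).trans (Nat.pow_le_pow_right (by omega) (by omega))
    exact_mod_cast h8
  · exact ⟨0, fun φ g1 g2 _ => absurd ⟨φ, g1, g2⟩ h⟩

/-- the bad classes with their levels -/
def Lv (d D B M : ℕ) (x : Quotient (stq d) × ℕ) : Prop :=
  1 ≤ x.2 ∧ x.1 ∈ BadZ d D B M x.2 ∧ ∀ t' : ℕ, 1 ≤ t' → x.1 ∈ BadZ d D B M t' → x.2 ≤ t'

theorem exists_lv {D B M T : ℕ} (hT : 1 ≤ T) {z : Quotient (stq d)} (hz : z ∈ BadZ d D B M T) :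
    ∃ t : ℕ, t ≤ T ∧ Lv d D B M (z, t) := by
  classical
  have h : ∃ t : ℕ, 1 ≤ t ∧ z ∈ BadZ d D B M t := ⟨T, hT, hz⟩
  refine ⟨Nat.find h, Nat.find_min' h ⟨hT, hz⟩, (Nat.find_spec h).1, (Nat.find_spec h).2, ?_⟩
  exact fun t' h1 h2 => Nat.find_min' h ⟨h1, h2⟩

theorem summable_lv (D B : ℕ) (hd : 2 ≤ d) {p : ℝ} (hp : 0 < p) : ∃ M : ℕ,
    Summable fun x : {x // Lv d D B M x} => ((max x.1.2 1 : ℕ) : ℝ) ^ (-p) := by
  classical
  obtain ⟨M, C, hC⟩ := few_bad (d := d) D B hd (p / 2) (by positivity)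
  refine ⟨M, ?_⟩
  refine Pool.Agent.R479.DA.summable_heights
    (fun x : {x // Lv d D B M x} => ((max x.1.2 1 : ℕ) : ℝ)) ?_
    (s := p / 2) (p := p) (C := |C|) (by linarith) hp ?_
  · rintro ⟨x, h1⟩
    exact_mod_cast le_max_right _ _
  · intro Z hZ
    set T : ℕ := ⌊Z⌋₊ with hT
    have hT1 : 1 ≤ T := Nat.le_floor (by exact_mod_cast hZ)
    obtain ⟨hfin, hcard⟩ := hC T hT1
    set Q : Set {x // Lv d D B M x} := {x | ((max x.1.2 1 : ℕ) : ℝ) ≤ Z} with hQ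
    have hmaps : ∀ x ∈ Q, x.1.1 ∈ BadZ d D B M T := by
      rintro ⟨⟨z, t⟩, h3, h4, h5⟩ h6
      have h7 : max t 1 ≤ T := Nat.le_floor h6
      exact BadZ_mono ((le_max_left _ _).trans h7) h4
    have hinj : Set.InjOn (fun x : {x // Lv d D B M x} => x.1.1) Q := by
      rintro ⟨⟨z, t⟩, h3, h4, h5⟩ - ⟨⟨z', t'⟩, h3', h4', h5'⟩ - he
      simp only at he h3 h4 h5 h3' h4' h5'
      subst he
      have e1 := h5 t' h3' h4'
      have e2 := h5' t h3 h4
      have e3 : t = t' := le_antisymm e1 e2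
      subst e3
      rfl
    have himg : (fun x : {x // Lv d D B M x} => x.1.1) '' Q ⊆ BadZ d D B M T := by
      rintro _ ⟨x, hx, rfl⟩
      exact hmaps x hx
    have hQfin : Q.Finite := Set.Finite.of_finite_image (hfin.subset himg) hinj
    refine ⟨hQfin, ?_⟩
    have hTZ : (T : ℝ) ≤ Z := Nat.floor_le (by linarith)
    calc ((Q.ncard : ℕ) : ℝ) = (((fun x : {x // Lv d D B M x} => x.1.1) '' Q).ncard : ℝ) := by
          rw [Set.ncard_image_of_injOn hinj]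
      _ ≤ ((BadZ d D B M T).ncard : ℝ) := by exact_mod_cast Set.ncard_le_ncard himg hfin
      _ ≤ |C| * (T : ℝ) ^ (p / 2) := hcard
      _ ≤ |C| * Z ^ (p / 2) := mul_le_mul_of_nonneg_left
          (Real.rpow_le_rpow (Nat.cast_nonneg _) hTZ (by positivity)) (abs_nonneg C)

end Pool.Agent.K3h53.MS
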