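import Pool.Agent.R323.PN.G
import Pool.Agent.R559.NP.DynK

/-!
# Preperiodic points of bounded degree in one conjugacy class
-/

set_option autoImplicit false

namespace Pool.Agent.K3h53.MS

open Pool.Agent.R323 Pool.Agent.R323.PN Height Polynomial IntermediateField

variable {d : ℕ}

theorem coe_ne (K : IntermediateField ℚ Qb) {s : K} (hs : s ≠ 0) : (s : Qb) ≠ 0 := by
  intro h
  exact hs (by exact_mod_cast h)

/-- a uniform height bound for the preperiodic points of one map over all extensions of bounded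
degree -/
theorem ht_bound (hd : 2 ≤ d) (K : IntermediateField ℚ Qb) [NumberField K]
    (F : Fin 2 → Fin (d + 1) → K)
    (hF : ∀ v : Fin 2 → Qb, ac (fun i j => (F i j : Qb)) v = 0 → v = 0) (e : ℕ) :
    ∃ κ : ℝ, ∀ (E : IntermediateField ℚ Qb) [NumberField E], K ≤ E → Module.finrank ℚ E ≤ e →
      ∀ z : Fin 2 → E, z ≠ 0 → ∀ m n : ℕ, m < n →
        wg ((ac fun i j => (F i j : Qb))^[m] (fun i => (z i : Qb)))
          ((ac fun i j => (F i j : Qb))^[n] (fun i => (z i : Qb))) = 0 →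
        mulHeight z ≤ κ := by
  obtain ⟨C1, A1, hC1, Hst⟩ := ht_step d (by omega)
  obtain ⟨X, hFX, hX1⟩ : ∃ X : ℕ, mulHeight (fun p : Fin 2 × Fin (d + 1) => F p.1 p.2) ≤ X ∧
      1 ≤ X := by
    obtain ⟨X, hX⟩ := exists_nat_ge (mulHeight (fun p : Fin 2 × Fin (d + 1) => F p.1 p.2))
    exact ⟨X + 1, hX.trans (by push_cast; linarith), by omega⟩
  have b1 : 1 ≤ X ^ (2 * (d + 1) + 1) := Nat.one_le_pow _ _ hX1
  have hFne : ∃ i j, F i j ≠ 0 := by
    by_contra hcon
    push Not at hcon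
    have h1 := hF (fun _ => 1) (by
      funext i
      simp [ac, hcon])
    exact one_ne_zero (congrFun h1 0)
  obtain ⟨s₁, hs₁, hc₁⟩ := norm1 K hFne hFX
  have hs' : (s₁ : Qb) ≠ 0 := coe_ne K hs₁
  have hbase : (1 : ℝ) ≤ C1 * ((X ^ (2 * (d + 1) + 1) : ℕ) : ℝ) ^ A1 := by
    have h2 : 1 ≤ C1 * (X ^ (2 * (d + 1) + 1)) ^ A1 := Nat.mul_pos hC1 (Nat.pow_pos b1)
    exact_mod_cast h2
  refine ⟨(C1 * ((X ^ (2 * (d + 1) + 1) : ℕ) : ℝ) ^ A1) ^ e, ?_⟩
  intro E _ hKE hEe z hz m n hmn h0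
  obtain ⟨cE, hcE⟩ : ∃ cE : Fin 2 → Fin (d + 1) → E,
      ∀ i j, ((cE i j : E) : Qb) = (s₁ : Qb) * (F i j : Qb) :=
    ⟨fun i j => ⟨((s₁ * F i j : K) : Qb), hKE (s₁ * F i j).2⟩, fun i j => by
      show ((s₁ * F i j : K) : Qb) = _
      push_cast
      rfl⟩
  have hmapc : (fun i j => algebraMap E Qb (cE i j)) = fun i j => (s₁ : Qb) * (F i j : Qb) := by
    funext i j
    exact hcE i j
  have hIb : ∀ i j, Ib (X ^ (2 * (d + 1) + 1)) ((cE i j : E) : Qb) := by
    intro i j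
    rw [hcE]
    have := hc₁ i j
    push_cast at this
    exact this
  have hrs : rsZ cE ≠ 0 ∧ rsZ (rv cE) ≠ 0 := by
    refine rsZ_ne_K (by omega : 1 ≤ d) (algebraMap E Qb) fun v hv => hF v ?_
    rw [hmapc, ac_scale] at hv
    exact (smul_eq_zero.1 hv).resolve_left hs'
  have hHb : Hb cE ((C1 * ((X ^ (2 * (d + 1) + 1) : ℕ) : ℝ) ^ A1) ^ Module.finrank ℚ E) :=
    ⟨one_le_pow₀ hbase, hrs.1, hrs.2, fun z hz =>
      Hst E ((X ^ (2 * (d + 1) + 1) : ℕ) : ℝ) (by exact_mod_cast b1) _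
        (fun i j => (int_coe E).1 (hIb i j).1)
        (fun v i j => ib_place E (hIb i j) v) hrs.1 hrs.2 z hz
        (ac_ne (by omega) hrs.1 hrs.2 hz)⟩
  have hit : ∀ k, (fun i => algebraMap E Qb ((ac cE)^[k] z i)) =
      (ac fun i j => (s₁ : Qb) * (F i j : Qb))^[k] (fun i => (z i : Qb)) := by
    intro k
    have e1 := ac_iter_map (algebraMap E Qb) cE z k
    rw [hmapc] at e1
    exact e1
  have hw : wg ((ac cE)^[m] z) ((ac cE)^[n] z) = 0 := by
    apply (algebraMap E Qb).injective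
    rw [map_zero, wg_map, hit, hit]
    obtain ⟨u, -, hu⟩ := iter_scale hs' (fun i j => (F i j : Qb)) (fun i => (z i : Qb)) m
    obtain ⟨u', -, hu'⟩ := iter_scale hs' (fun i j => (F i j : Qb)) (fun i => (z i : Qb)) n
    rw [hu, hu', wg_smul, h0, mul_zero]
  have h1 := hHb.pre hd hz hmn hw 0
  simp only [Function.iterate_zero, id_eq] at h1
  exact h1.trans (pow_le_pow_right₀ hbase hEe)

/-- points with a given short orbit have bounded degree -/
theorem deg_short (hd : 2 ≤ d) (K : IntermediateField ℚ Qb) [NumberField K]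
    (F : Fin 2 → Fin (d + 1) → K)
    (hF : ∀ v : Fin 2 → Qb, ac (fun i j => (F i j : Qb)) v = 0 → v = 0)
    {z : Fin 2 → Qb} (hz : z ≠ 0) {m n : ℕ} (hmn : m < n)
    (h0 : wg ((ac fun i j => (F i j : Qb))^[m] z) ((ac fun i j => (F i j : Qb))^[n] z) = 0) :
    ∃ E : IntermediateField ℚ Qb, K ≤ E ∧ FiniteDimensional ℚ E ∧
      Module.finrank ℚ E ≤ (d ^ m + d ^ n) * Module.finrank ℚ K ∧ ∃ w : Fin 2 → Qb, (∀ l, w l ∈ E) ∧
      ∃ c : Qb, c ≠ 0 ∧ z = c • w := by
  classical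
  have hpos : 1 ≤ d ^ m + d ^ n := by
    have : 1 ≤ d ^ m := Nat.one_le_pow _ _ (by omega)
    omega
  by_cases h1 : z 1 = 0
  · refine ⟨K, le_rfl, inferInstance, Nat.le_mul_of_pos_left _ hpos, ![1, 0], ?_, z 0, ?_, ?_⟩
    · intro l
      fin_cases l
      · exact one_mem _
      · exact zero_mem _
    · intro h
      apply hz
      funext l
      fin_cases l
      · exact h
      · exact h1
    · funext l
      fin_cases l
      · simp
      · simpa using h1
  obtain ⟨κ, hHb⟩ := Pool.Agent.R559.NP.exists_Hb hd (c := F) (algebraMap K Qb) hF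
  set Pn : ℕ → Fin 2 → K[X] := fun n => (ac (fun i j => C (F i j)))^[n] ![X, 1] with hPn
  have hv : ∀ i, ((![X, 1] : Fin 2 → K[X]) i).natDegree ≤ 1 := by
    intro i
    fin_cases i <;> simp
  set Φ : K[X] := wg (Pn m) (Pn n) with hΦ
  have hΦdeg : Φ.natDegree ≤ d ^ m + d ^ n :=
    wg_deg (fun k => ac_iter_deg F _ hv m k) (fun k => ac_iter_deg F _ hv n k)
  have hev : ∀ (t : K) (n : ℕ), (fun i => (Pn n i).eval t) = (ac F)^[n] ![t, 1] := by
    intro t n
    have h2 := ac_iter_map (Polynomial.evalRingHom t) (fun i j => C (F i j))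
      (![X, 1] : Fin 2 → K[X]) n
    simp only [Polynomial.coe_evalRingHom, Polynomial.eval_C] at h2
    have e : (fun i => Polynomial.eval t ((![X, 1] : Fin 2 → K[X]) i)) = ![t, 1] := by
      funext i
      fin_cases i <;> simp
    rw [e] at h2
    exact h2
  have hΦ0 : Φ ≠ 0 := by
    intro hcon
    have hfin := NumberField.finite_setOfPred_mulHeight₁_le (K := K) κ
    have huniv : {x : K | mulHeight₁ x ≤ κ} = Set.univ := by
      ext t
      simp only [Set.mem_ofPred_eq, Set.mem_univ, iff_true]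
      rw [mulHeight₁_eq_mulHeight]
      have ht : (![t, 1] : Fin 2 → K) ≠ 0 := by
        intro h
        have := congrFun h 1
        simp at this
      refine hHb.pre hd ht hmn ?_ 0
      rw [← hev, ← hev]
      have h3 := wg_map (Polynomial.evalRingHom t) (Pn m) (Pn n)
      have h4 : wg (Pn m) (Pn n) = 0 := hcon
      rw [h4, map_zero] at h3
      exact h3.symm
    rw [huniv] at hfin
    exact Set.infinite_univ hfin
  obtain ⟨x, hx⟩ : ∃ x, x = z 0 / z 1 := ⟨_, rfl⟩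
  have hroot : Polynomial.aeval x Φ = 0 := by
    have e1 : ∀ k, (fun i => Polynomial.aeval x (Pn k i)) =
        (ac fun i j => (F i j : Qb))^[k] ![x, 1] := by
      intro k
      have h2 := ac_iter_map ((Polynomial.aeval x : K[X] →ₐ[K] Qb) : K[X] →+* Qb)
        (fun i j => C (F i j)) (![X, 1] : Fin 2 → K[X]) k
      have e2 : (fun i => ((Polynomial.aeval x : K[X] →ₐ[K] Qb) : K[X] →+* Qb)
          ((![X, 1] : Fin 2 → K[X]) i)) = ![x, 1] := by
        funext i
        fin_cases i <;> simp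
      have e3 : (fun i j => ((Polynomial.aeval x : K[X] →ₐ[K] Qb) : K[X] →+* Qb) (C (F i j))) =
          fun i j => (F i j : Qb) := by
        funext i j
        simp only [AlgHom.coe_toRingHom, Polynomial.aeval_C]
        rfl
      rw [e2, e3] at h2
      exact h2
    have h3 := wg_map ((Polynomial.aeval x : K[X] →ₐ[K] Qb) : K[X] →+* Qb) (Pn m) (Pn n)
    have h4 : Polynomial.aeval x Φ = wg ((ac fun i j => (F i j : Qb))^[m] ![x, 1])
        ((ac fun i j => (F i j : Qb))^[n] ![x, 1]) := by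
      rw [← e1, ← e1]
      exact h3
    rw [h4]
    have hzx : z = z 1 • (![x, 1] : Fin 2 → Qb) := by
      funext i
      fin_cases i
      · simp [hx, mul_div_cancel₀, h1]
      · simp
    rw [hzx, ac_iter_smul, ac_iter_smul, wg_smul] at h0
    exact (mul_eq_zero.1 h0).resolve_left (mul_ne_zero (pow_ne_zero _ h1) (pow_ne_zero _ h1))
  have hint : IsIntegral K x := (isAlgebraic_iff_isIntegral.1 ⟨Φ, hΦ0, hroot⟩)
  haveI : FiniteDimensional K K⟮x⟯ := adjoin.finiteDimensional hint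
  have hfr : Module.finrank K K⟮x⟯ ≤ d ^ m + d ^ n := by
    rw [adjoin.finrank hint]
    exact (Polynomial.natDegree_le_of_dvd (minpoly.dvd K x hroot) hΦ0).trans hΦdeg
  haveI : FiniteDimensional ℚ K⟮x⟯ := FiniteDimensional.trans ℚ K K⟮x⟯
  refine ⟨K⟮x⟯.restrictScalars ℚ, ?_, ?_, ?_, ![x, 1], ?_, z 1, h1, ?_⟩
  · intro y hy
    exact (K⟮x⟯).algebraMap_mem ⟨y, hy⟩
  · exact this
  · have h2 : Module.finrank ℚ (K⟮x⟯.restrictScalars ℚ) = Module.finrank ℚ K⟮x⟯ := rfl
    rw [h2, ← Module.finrank_mul_finrank ℚ K K⟮x⟯, mul_comm]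
    exact Nat.mul_le_mul_right _ hfr
  · intro l
    fin_cases l
    · exact mem_adjoin_simple_self K x
    · exact one_mem _
  · funext l
    fin_cases l
    · simp [hx, mul_div_cancel₀, h1]
    · simp

theorem wg_mem (L : IntermediateField ℚ Qb) {x y : Fin 2 → Qb} (hx : ∀ l, x l ∈ L)
    (hy : ∀ l, y l ∈ L) : wg x y ∈ L := by
  unfold wg
  exact sub_mem (mul_mem (hx 0) (hy 1)) (mul_mem (hx 1) (hy 0))

/-- a matrix which maps three points over `L` to three points over `L` is defined over `L`, up to a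
factor -/
theorem mat_field (L : IntermediateField ℚ Qb) (A : Matrix (Fin 2) (Fin 2) Qb)
    (R S : Fin 3 → Fin 2 → Qb) (hR : ∀ k l, R k l ∈ L) (hS : ∀ k l, S k l ∈ L)
    (hRne : ∀ i j, i ≠ j → wg (R i) (R j) ≠ 0) (hSne : ∀ i j, i ≠ j → wg (S i) (S j) ≠ 0)
    (lam : Fin 3 → Qb) (hlam : ∀ k, lam k ≠ 0) (h : ∀ k, A.mulVec (S k) = lam k • R k) :
    ∃ μ : Qb, μ ≠ 0 ∧ ∀ v : Fin 2 → Qb, (∀ l, v l ∈ L) → ∀ l, (μ • A.mulVec v) l ∈ L := by
  have hS01 := hSne 0 1 (by decide)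
  have hS02 := hSne 0 2 (by decide)
  have hS12 := hSne 1 2 (by decide)
  have hR01 := hRne 0 1 (by decide)
  have hR02 := hRne 0 2 (by decide)
  have hR12 := hRne 1 2 (by decide)
  -- the expansion of a vector
  have hexp : ∀ v : Fin 2 → Qb, wg (S 0) (S 1) • v = wg v (S 1) • S 0 + wg (S 0) v • S 1 := by
    intro v
    funext l
    fin_cases l
    · simp only [wg, Pi.smul_apply, Pi.add_apply, smul_eq_mul, Fin.zero_eta]
      ring
    · simp only [wg, Pi.smul_apply, Pi.add_apply, smul_eq_mul, Fin.mk_one]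
      ring
  have hA : ∀ v : Fin 2 → Qb, wg (S 0) (S 1) • A.mulVec v =
      (wg v (S 1) * lam 0) • R 0 + (wg (S 0) v * lam 1) • R 1 := by
    intro v
    have h1 := congrArg A.mulVec (hexp v)
    rw [Matrix.mulVec_smul, Matrix.mulVec_add, Matrix.mulVec_smul, Matrix.mulVec_smul, h 0, h 1,
      smul_smul, smul_smul] at h1
    exact h1
  -- the relations of the factors
  have h2 := hA (S 2)
  rw [h 2, smul_smul] at h2
  have e0 : wg (S 0) (S 1) * lam 2 * wg (R 2) (R 1) = wg (S 2) (S 1) * lam 0 * wg (R 0) (R 1) := by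
    have h3 := congrArg (fun x => wg x (R 1)) h2
    have e1 : ∀ (a b : Qb) (x y w : Fin 2 → Qb), wg (a • x + b • y) w = a * wg x w + b * wg y w := by
      intro a b x y w
      simp only [wg, Pi.smul_apply, Pi.add_apply, smul_eq_mul]
      ring
    have e2 : ∀ (a : Qb) (x w : Fin 2 → Qb), wg (a • x) w = a * wg x w := by
      intro a x w
      simp only [wg, Pi.smul_apply, smul_eq_mul]
      ring
    rw [e1, e2, wg_self, mul_zero, add_zero] at h3
    exact h3
  have e1 : wg (S 0) (S 1) * lam 2 * wg (R 2) (R 0) = wg (S 0) (S 2) * lam 1 * wg (R 1) (R 0) := by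
    have h3 := congrArg (fun x => wg x (R 0)) h2
    have e1 : ∀ (a b : Qb) (x y w : Fin 2 → Qb), wg (a • x + b • y) w = a * wg x w + b * wg y w := by
      intro a b x y w
      simp only [wg, Pi.smul_apply, Pi.add_apply, smul_eq_mul]
      ring
    have e2 : ∀ (a : Qb) (x w : Fin 2 → Qb), wg (a • x) w = a * wg x w := by
      intro a x w
      simp only [wg, Pi.smul_apply, smul_eq_mul]
      ring
    rw [e1, e2, wg_self, mul_zero, zero_add] at h3
    exact h3
  have hS21 : wg (S 2) (S 1) ≠ 0 := by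
    rw [wg_comm]
    exact neg_ne_zero.2 hS12
  have hR10 : wg (R 1) (R 0) ≠ 0 := by
    rw [wg_comm]
    exact neg_ne_zero.2 hR01
  have q0 : lam 0 / lam 2 = wg (S 0) (S 1) * wg (R 2) (R 1) / (wg (S 2) (S 1) * wg (R 0) (R 1)) := by
    rw [div_eq_div_iff (hlam 2) (mul_ne_zero hS21 hR01)]
    linear_combination -e0
  have q1 : lam 1 / lam 2 = wg (S 0) (S 1) * wg (R 2) (R 0) / (wg (S 0) (S 2) * wg (R 1) (R 0)) := by
    rw [div_eq_div_iff (hlam 2) (mul_ne_zero hS02 hR10)]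
    linear_combination -e1
  have m0 : lam 0 / lam 2 ∈ L := by
    rw [q0]
    exact div_mem (mul_mem (wg_mem L (hS 0) (hS 1)) (wg_mem L (hR 2) (hR 1)))
      (mul_mem (wg_mem L (hS 2) (hS 1)) (wg_mem L (hR 0) (hR 1)))
  have m1 : lam 1 / lam 2 ∈ L := by
    rw [q1]
    exact div_mem (mul_mem (wg_mem L (hS 0) (hS 1)) (wg_mem L (hR 2) (hR 0)))
      (mul_mem (wg_mem L (hS 0) (hS 2)) (wg_mem L (hR 1) (hR 0)))
  refine ⟨(lam 2)⁻¹, inv_ne_zero (hlam 2), fun v hv l => ?_⟩
  have h3 := congrFun (hA v) l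
  simp only [Pi.smul_apply, Pi.add_apply, smul_eq_mul] at h3 ⊢
  have h4 : (lam 2)⁻¹ * A.mulVec v l = (wg v (S 1) * (lam 0 / lam 2) * R 0 l +
      wg (S 0) v * (lam 1 / lam 2) * R 1 l) / wg (S 0) (S 1) := by
    rw [eq_div_iff hS01]
    have h5 := hlam 2
    field_simp
    linear_combination h3
  rw [h4]
  exact div_mem (add_mem (mul_mem (mul_mem (wg_mem L hv (hS 1)) m0) (hR 0 l))
    (mul_mem (mul_mem (wg_mem L (hS 0) hv) m1) (hR 1 l))) (wg_mem L (hS 0) (hS 1))

end Pool.Agent.K3h53.MS
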